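import Mathlib
import Pool.Agent.U890.RSA.Asym

/-!
# Variance of the jamming count for random sequential adsorption of `r`-mers on `{1, …, n}`
-/

open Filter Topology

namespace Pool.Agent.Results.MP_669328_pr.JammingVariance

/-! ## The process -/

/-- the sites of block number `i` (`0 ≤ i ≤ n - r`) of `{1, …, n}`: `i + 1, …, i + r` -/
def block (r i : ℕ) : Finset ℕ := Finset.Icc (i + 1) (i + r)

/-- if the blocks in `P` have been placed: the blocks none of whose sites is covered -/
def free (r n : ℕ) (P : Finset (Fin (n + 1 - r))) : Finset (Fin (n + 1 - r)) :=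
  Finset.univ.filter fun i => ∀ j ∈ P, Disjoint (block r i) (block r j)

/-- one placement: uniform among the blocks that are still entirely uncovered
(nothing happens if there is no such block) -/
noncomputable def step (r n : ℕ) (P : Finset (Fin (n + 1 - r))) :
    PMF (Finset (Fin (n + 1 - r))) :=
  if h : (free r n P).Nonempty then
    (PMF.uniformOfFinset (free r n P) h).map fun i => insert i P
  else PMF.pure P

/-- the law of the set of placed blocks after `k` placements, starting from the empty lattice -/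
noncomputable def law (r n : ℕ) : ℕ → PMF (Finset (Fin (n + 1 - r)))
  | 0 => PMF.pure ∅
  | k + 1 => (law r n k).bind (step r n)

/-- the mean of the number `C_n` of blocks of the jammed configuration (`n` placements are enough
to reach it) -/
noncomputable def mean (r n : ℕ) : ℝ := ∑ P, (law r n n P).toReal * (P.card : ℝ)

/-- the variance of `C_n` -/
noncomputable def variance (r n : ℕ) : ℝ :=
  ∑ P, (law r n n P).toReal * ((P.card : ℝ) - mean r n) ^ 2

/-! ## The formula -/

/-- `a(x) = exp(-2 ∑_{k=1}^{r-1} (1 - x^k)/k)` -/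
noncomputable def a (r : ℕ) (x : ℝ) : ℝ :=
  Real.exp (-2 * ∑ k ∈ Finset.Icc 1 (r - 1), (1 - x ^ k) / k)

/-- `L(x) = ∫_0^x a(t) dt` -/
noncomputable def L (r : ℕ) (x : ℝ) : ℝ := ∫ t in (0 : ℝ)..x, a r t

/-- the limiting variance -/
noncomputable def v (r : ℕ) : ℝ := L r 1 ^ 2 - L r 1 + 4 * ∫ x in (0 : ℝ)..1,
  x ^ (r - 1) * L r x * ((∑ k ∈ Finset.range (r - 1), x ^ k) -
    x ^ (r - 2) * (L r x / a r x) * ∑ j ∈ Finset.range (r - 1), ((r : ℝ) - 1 - j) * x ^ j)

/-! ## Expectations under finitely supported laws -/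

section expectation

variable {α β : Type*} [Fintype α] [Fintype β]

theorem ee_pure [DecidableEq α] (x : α) (F : α → ℝ) :
    ∑ y, ((PMF.pure x) y).toReal * F y = F x := by
  rw [Finset.sum_eq_single x]
  · simp
  · intro y _ hy
    simp [PMF.pure_apply, hy]
  · simp

theorem ee_bind (p : PMF α) (q : α → PMF β) (F : β → ℝ) :
    ∑ y, ((p.bind q) y).toReal * F y = ∑ x, (p x).toReal * ∑ y, (q x y).toReal * F y := by
  have h : ∀ y, ((p.bind q) y).toReal = ∑ x, (p x).toReal * (q x y).toReal := by
    intro y
    rw [PMF.bind_apply, tsum_fintype, ENNReal.toReal_sum]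
    · exact Finset.sum_congr rfl fun x _ => ENNReal.toReal_mul
    · intro x _
      exact ENNReal.mul_ne_top (p.apply_ne_top x) ((q x).apply_ne_top y)
  simp only [h, Finset.sum_mul, Finset.mul_sum]
  rw [Finset.sum_comm]
  exact Finset.sum_congr rfl fun x _ => Finset.sum_congr rfl fun y _ => by ring

theorem ee_uniform [DecidableEq α] (t : Finset α) (ht : t.Nonempty) (F : α → ℝ) :
    ∑ x, ((PMF.uniformOfFinset t ht) x).toReal * F x = (∑ x ∈ t, F x) / t.card := by
  have h : ∀ x, ((PMF.uniformOfFinset t ht) x).toReal * F x =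
      if x ∈ t then F x / t.card else 0 := by
    intro x
    rw [PMF.uniformOfFinset_apply]
    split_ifs with hx
    · rw [ENNReal.toReal_inv, ENNReal.toReal_natCast]; ring
    · simp
  simp only [h]
  rw [Finset.sum_ite_mem, Finset.univ_inter, Finset.sum_div]

end expectation

/-! ## The chain and the expectation functional -/

open Pool.Agent.U890.RSA (rem E E_unfold E_empty)

theorem disjoint_block {r : ℕ} (hr : 0 < r) (i j : ℕ) :
    Disjoint (block r i) (block r j) ↔ i + r ≤ j ∨ j + r ≤ i := by
  unfold block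
  rw [Finset.disjoint_left]
  constructor
  · intro h
    by_contra hc
    push Not at hc
    refine h (a := max (i + 1) (j + 1)) ?_ ?_ <;> rw [Finset.mem_Icc] <;> omega
  · rintro h x hx hx'
    rw [Finset.mem_Icc] at hx hx'
    omega

/-- the free blocks, as numbers -/
def fr (r n : ℕ) (P : Finset (Fin (n + 1 - r))) : Finset ℕ :=
  (free r n P).map Fin.valEmbedding

theorem not_mem_of_free {r n : ℕ} (hr : 0 < r) {P : Finset (Fin (n + 1 - r))}
    {i : Fin (n + 1 - r)} (hi : i ∈ free r n P) : i ∉ P := by
  intro h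
  simp only [free, Finset.mem_filter] at hi
  have := (disjoint_block hr _ _).mp (hi.2 i h)
  omega

theorem rem_fr {r n : ℕ} (hr : 0 < r) (P : Finset (Fin (n + 1 - r))) (i : Fin (n + 1 - r)) :
    rem r (fr r n P) i = fr r n (insert i P) := by
  ext j
  simp only [rem, fr, free, Finset.mem_filter, Finset.mem_map, Finset.mem_univ, true_and,
    Finset.mem_insert, forall_eq_or_imp, Fin.valEmbedding_apply]
  constructor
  · rintro ⟨⟨j', hj', rfl⟩, h⟩
    exact ⟨j', ⟨(disjoint_block hr _ _).mpr (by omega), hj'⟩, rfl⟩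
  · rintro ⟨j', ⟨h1, h2⟩, rfl⟩
    exact ⟨⟨j', h2, rfl⟩, by have := (disjoint_block hr _ _).mp h1; omega⟩

/-- the conditional expectation of `f C_n` when the blocks in `P` have been placed -/
noncomputable def V (r n : ℕ) (f : ℕ → ℝ) (P : Finset (Fin (n + 1 - r))) : ℝ :=
  E r (fr r n P) fun c => f (c + P.card)

theorem ee_step {r n : ℕ} (hr : 0 < r) (f : ℕ → ℝ) (P : Finset (Fin (n + 1 - r))) :
    ∑ Q, (step r n P Q).toReal * V r n f Q = V r n f P := by
  unfold step
  split_ifs with h
  · unfold PMF.map
    rw [ee_bind]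
    have h1 : ∀ i : Fin (n + 1 - r),
        ∑ Q, (((PMF.pure ∘ fun i => insert i P) i : PMF (Finset (Fin (n + 1 - r)))) Q).toReal *
          V r n f Q = V r n f (insert i P) := by
      intro i
      exact ee_pure (insert i P) (V r n f)
    simp only [h1]
    rw [ee_uniform]
    have hc : ((free r n P).card : ℝ) ≠ 0 := by
      have := Finset.card_pos.mpr h
      positivity
    rw [div_eq_iff hc, mul_comm]
    have h2 := E_unfold hr (fr r n P) (fun c => f (c + P.card))
    have h3 : (fr r n P).card = (free r n P).card := Finset.card_map _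
    rw [h3] at h2
    unfold V
    rw [h2]
    unfold fr
    rw [Finset.sum_map]
    refine Finset.sum_congr rfl fun i hi => ?_
    have h4 := rem_fr hr P i
    unfold fr at h4
    rw [Fin.valEmbedding_apply, h4, Finset.card_insert_of_notMem (not_mem_of_free hr hi)]
    congr 1
    funext c
    congr 1
    ring
  · exact ee_pure P _

theorem ee_law {r n : ℕ} (hr : 0 < r) (f : ℕ → ℝ) (k : ℕ) :
    ∑ P, (law r n k P).toReal * V r n f P = V r n f ∅ := by
  induction k with
  | zero => exact ee_pure _ _
  | succ k ih =>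
    unfold law
    rw [ee_bind]
    simp only [ee_step hr]
    exact ih

theorem support_law {r n : ℕ} (hr : 0 < r) (k : ℕ) :
    ∀ P ∈ (law r n k).support, free r n P = ∅ ∨ k ≤ P.card := by
  induction k with
  | zero => intro P _; right; exact Nat.zero_le _
  | succ k ih =>
    intro Q hQ
    unfold law at hQ
    rw [PMF.mem_support_bind_iff] at hQ
    obtain ⟨P, hP, hQ⟩ := hQ
    unfold step at hQ
    split_ifs at hQ with h
    · rw [PMF.mem_support_map_iff] at hQ
      obtain ⟨i, hi, rfl⟩ := hQ
      rw [PMF.mem_support_uniformOfFinset_iff] at hi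
      rcases ih P hP with h0 | h0
      · rw [h0] at h; exact absurd h (by simp)
      · right
        rw [Finset.card_insert_of_notMem (not_mem_of_free hr hi)]
        omega
    · rw [PMF.mem_support_pure_iff] at hQ
      subst hQ
      left
      exact Finset.not_nonempty_iff_eq_empty.mp h

/-- after `n` placements the configuration is jammed -/
theorem jammed {r n : ℕ} (hr : 0 < r) (P : Finset (Fin (n + 1 - r)))
    (hP : P ∈ (law r n n).support) : free r n P = ∅ := by
  rcases support_law hr n P hP with h | h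
  · exact h
  · have h1 : P.card = Fintype.card (Fin (n + 1 - r)) := by
      have := P.card_le_univ
      rw [Fintype.card_fin] at this ⊢
      omega
    rw [Finset.card_eq_iff_eq_univ] at h1
    rw [Finset.eq_empty_iff_forall_notMem]
    intro i hi
    exact not_mem_of_free hr hi (h1 ▸ Finset.mem_univ i)

theorem ee_final {r n : ℕ} (hr : 0 < r) (f : ℕ → ℝ) :
    ∑ P, (law r n n P).toReal * f P.card = E r (Finset.range (n + 1 - r)) f := by
  have h1 := ee_law (n := n) hr f n
  have h2 : ∑ P, (law r n n P).toReal * V r n f P = ∑ P, (law r n n P).toReal * f P.card := by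
    refine Finset.sum_congr rfl fun P _ => ?_
    by_cases hP : P ∈ (law r n n).support
    · congr 1
      unfold V fr
      rw [jammed hr P hP, Finset.map_empty, E_empty, zero_add]
    · rw [PMF.mem_support_iff, not_not] at hP
      rw [hP]; simp
  rw [← h2, h1]
  unfold V fr
  have h3 : free r n ∅ = Finset.univ := by
    unfold free; simp
  rw [h3, Fin.map_valEmbedding_univ, Nat.Iio_eq_range]
  simp

open Pool.Agent.U890.RSA (g h E_add E_mul E_const)

theorem mean_eq {r n : ℕ} (hr : 0 < r) : mean r n = g r (n + 1 - r) :=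
  ee_final hr fun c => (c : ℝ)

theorem variance_eq {r n : ℕ} (hr : 0 < r) :
    variance r n = h r (n + 1 - r) + g r (n + 1 - r) - g r (n + 1 - r) ^ 2 := by
  unfold variance
  rw [mean_eq hr, ee_final hr (fun c => ((c : ℝ) - g r (n + 1 - r)) ^ 2)]
  set m := g r (n + 1 - r) with hm
  have e : (fun c : ℕ => ((c : ℝ) - m) ^ 2) =
      fun c : ℕ => ((c : ℝ) * ((c : ℝ) - 1) + (1 - 2 * m) * (c : ℝ)) + m ^ 2 := by
    funext c; ring
  rw [e, E_add _ _ (fun _ => m ^ 2), E_const, E_add _ _ (fun c => (1 - 2 * m) * (c : ℝ)), E_mul]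
  have e1 : E r (Finset.range (n + 1 - r)) (fun c => (c : ℝ)) = m := rfl
  have e2 : E r (Finset.range (n + 1 - r)) (fun c => (c : ℝ) * ((c : ℝ) - 1)) =
      h r (n + 1 - r) := rfl
  rw [e1, e2]
  ring

/-- For every `r ≥ 2` the process started on the empty lattice `{1, …, n}` is jammed after `n`
placements, and the variance of the number of `r`-mers of the jammed configuration, divided by `n`,
tends to `v r`. -/
theorem result (r : ℕ) (hr : 2 ≤ r) :
    (∀ n, ∀ P ∈ (law r n n).support, free r n P = ∅) ∧
    Tendsto (fun n : ℕ => variance r n / n) atTop (𝓝 (v r)) := by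
  refine ⟨fun n P hP => jammed (by omega) P hP, ?_⟩
  obtain ⟨s, rfl⟩ : ∃ s, r = s + 2 := ⟨r - 2, by omega⟩
  have h1 := Pool.Agent.U890.RSA.var_asym s
  rw [← tendsto_add_atTop_iff_nat (s + 1)]
  have h2 : Tendsto (fun N : ℕ => (N : ℝ) / ((N : ℝ) + ((s : ℝ) + 1))) atTop (𝓝 1) :=
    tendsto_natCast_div_add_atTop _
  have h3 := h1.mul h2
  rw [mul_one] at h3
  refine (h3.congr' ?_)
  filter_upwards [eventually_gt_atTop 0] with N hN
  rw [variance_eq (by omega : 0 < s + 2), show N + (s + 1) + 1 - (s + 2) = N by omega]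
  have hN' : (N : ℝ) ≠ 0 := by positivity
  have hN2 : (N : ℝ) + ((s : ℝ) + 1) ≠ 0 := by positivity
  push_cast
  field_simp

end Pool.Agent.Results.MP_669328_pr.JammingVariance
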